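import Mathlib
import Pool.Agent.W757.RD.StN
import Pool.Agent.H790R3.RB.TSP
import Pool.Agent.H790R3.RB.TMOB
import Pool.Agent.H790R3.RB.TWR
import Pool.Agent.H790R3.RB.TFAM

/-! Project RD (helper757), task RE-NAC: fixed points near superattracting fixed points are
attracting (helper364). -/

set_option autoImplicit false

open Topology Filter Metric Set MeasureTheory
open Pool.Agent.H790R3.RB
open Pool.Agent.H790R3.RB.FAM
open scoped OnePoint

namespace Pool.Agent.W364.RENAC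

/-- a contraction in a chart gives a sink -/
theorem sink_of_contr {f : OnePoint ℂ → OnePoint ℂ} {φ : ℂ → OnePoint ℂ} (hφ : IsOpenEmbedding φ)
    {g : ℂ → ℂ} {a : ℂ} {r : ℝ} (hr : 0 < r) (ha : g a = a)
    (hfg : ∀ w ∈ ball a r, f (φ w) = φ (g w))
    (hc : ∀ w ∈ ball a r, ‖g w - a‖ ≤ 1 / 2 * ‖w - a‖) : Sink f 1 (φ a) := by
  have hit : ∀ k : ℕ, ∀ w ∈ ball a r, ∃ w', f^[k] (φ w) = φ w' ∧ ‖w' - a‖ ≤ (1 / 2) ^ k * ‖w - a‖ := by
    intro k
    induction k with
    | zero => intro w _; exact ⟨w, rfl, by simp⟩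
    | succ k ih =>
      intro w hw
      obtain ⟨w', h1, h2⟩ := ih w hw
      have hw0 : ‖w - a‖ < r := by rw [← dist_eq_norm]; exact hw
      have hw' : w' ∈ ball a r := by
        rw [mem_ball, dist_eq_norm]
        refine lt_of_le_of_lt h2 (lt_of_le_of_lt ?_ hw0)
        exact mul_le_of_le_one_left (norm_nonneg _) (pow_le_one₀ (by norm_num) (by norm_num))
      refine ⟨g w', ?_, ?_⟩
      · rw [Function.iterate_succ_apply', h1, hfg w' hw']
      · refine (hc w' hw').trans ?_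
        rw [pow_succ]
        nlinarith
  refine ⟨one_pos, ?_, φ '' ball a r, hφ.isOpenMap.image_mem_nhds (ball_mem_nhds a hr), ?_⟩
  · rw [Function.iterate_one, hfg a (mem_ball_self hr), ha]
  · intro V hV
    have h1 : φ ⁻¹' V ∈ 𝓝 a := hφ.continuous.continuousAt.preimage_mem_nhds hV
    obtain ⟨ε, hε, hεV⟩ := Metric.mem_nhds_iff.1 h1
    have h2 : Tendsto (fun k : ℕ => ((1 / 2 : ℝ)) ^ k * r) atTop (𝓝 (0 * r)) :=
      (tendsto_pow_atTop_nhds_zero_of_lt_one (by norm_num) (by norm_num)).mul_const r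
    rw [zero_mul] at h2
    filter_upwards [h2.eventually_lt_const hε] with k hk
    rintro _ ⟨w, hw, rfl⟩
    obtain ⟨w', h3, h4⟩ := hit k w hw
    rw [one_mul, h3]
    apply hεV
    rw [mem_ball, dist_eq_norm]
    refine lt_of_le_of_lt (h4.trans ?_) hk
    refine mul_le_mul_of_nonneg_left ?_ (by positivity)
    rw [← dist_eq_norm]
    exact le_of_lt hw

/-- charts -/
theorem chart (k : Option (Fin 1)) : IsOpenEmbedding (fun z : ℂ => pr (cp k z)) := by
  cases k with
  | none =>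
    obtain ⟨h, hh, -⟩ := MOB SP 0 1 1 0 (by norm_num)
    have e : (fun z : ℂ => pr (cp (none : Option (Fin 1)) z)) = h ∘ ((↑) : ℂ → OnePoint ℂ) := by
      funext z
      have h1 := hh (z, 1) (by intro h; have := congrArg Prod.snd h; simp at this)
      have h2 : pr (z, 1) = (z : OnePoint ℂ) := by simp [pr]
      rw [h2] at h1
      simp only [Function.comp_apply]
      rw [h1]
      simp [cp]
    rw [e]
    exact h.isOpenEmbedding.comp OnePoint.isOpenEmbedding_coe
  | some k =>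
    have e : (fun z : ℂ => pr (cp (some k : Option (Fin 1)) z)) = ((↑) : ℂ → OnePoint ℂ) := by
      funext z
      simp [pr, cp]
    rw [e]
    exact OnePoint.isOpenEmbedding_coe

/-- the derivative of the map in a chart vanishes at a critical fixed point -/
theorem deriv_zero {d : ℕ} (hd : 2 ≤ d) (x : CV d) (k : Option (Fin 1)) (z : ℂ)
    (hw : wr x (cp k z) = 0) (hdn : dn k (hF x (cp k z)) ≠ 0) (e : ℂ × ℂ)
    (he : HasDerivAt (fun w => cp k w) e z) :
    HasDerivAt (fun w => lc k (hF x (cp k w))) 0 z := by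
  have hFd : Differentiable ℂ (hF x) := by
    have h := hF_iter_differentiable d 1
    exact h.comp ((differentiable_const x).prodMk differentiable_id)
  set p := cp k z with hp
  have h1 : HasFDerivAt (hF x) (fderiv ℂ (hF x) p) p := (hFd p).hasFDerivAt
  have h1a : HasFDerivAt (hF x) (fderiv ℂ (hF x) p) ((fun w => cp k w) z) := h1
  have h2 : HasDerivAt (fun w => hF x (cp k w)) (fderiv ℂ (hF x) p e) z :=
    h1a.comp_hasDerivAt z he
  -- Euler
  have hE : fderiv ℂ (hF x) p p = (d : ℂ) • hF x p := by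
    have e1 : HasDerivAt (fun a : ℂ => a • p) p 1 := by
      simpa using (hasDerivAt_id (1 : ℂ)).smul_const p
    have e2 : HasDerivAt (fun a : ℂ => hF x (a • p)) (fderiv ℂ (hF x) p p) 1 := by
      have h1' : HasFDerivAt (hF x) (fderiv ℂ (hF x) p) ((1 : ℂ) • p) := by rwa [one_smul]
      exact h1'.comp_hasDerivAt (1 : ℂ) e1
    have e3 : HasDerivAt (fun a : ℂ => hF x (a • p)) ((d : ℂ) • hF x p) 1 := by
      have e4 : (fun a : ℂ => hF x (a • p)) = fun a : ℂ => a ^ d • hF x p := by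
        funext a
        exact hF_smul x a p
      rw [e4]
      simpa using (hasDerivAt_pow d (1 : ℂ)).smul_const (hF x p)
    exact e2.unique e3
  have h3 := (WR d x hd).2.2 p e p
  rw [hw, zero_mul, hE, cr_smul_right] at h3
  have hd0 : (d : ℂ) ≠ 0 := by
    have : d ≠ 0 := by omega
    exact_mod_cast this
  have h4 : cr (fderiv ℂ (hF x) p e) (hF x p) = 0 := (mul_eq_zero.1 h3).resolve_left hd0
  set v := fderiv ℂ (hF x) p e with hv
  cases k with
  | none =>
    have g1 : HasDerivAt (fun w => (hF x (cp (none : Option (Fin 1)) w)).1) v.1 z := h2.fst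
    have g2 : HasDerivAt (fun w => (hF x (cp (none : Option (Fin 1)) w)).2) v.2 z := h2.snd
    have hne : (hF x (cp (none : Option (Fin 1)) z)).1 ≠ 0 := hdn
    have g3 := g2.div g1 hne
    have e5 : (v.2 * (hF x (cp (none : Option (Fin 1)) z)).1 -
        (hF x (cp (none : Option (Fin 1)) z)).2 * v.1) /
        (hF x (cp (none : Option (Fin 1)) z)).1 ^ 2 = 0 := by
      have : v.2 * (hF x (cp (none : Option (Fin 1)) z)).1 -
        (hF x (cp (none : Option (Fin 1)) z)).2 * v.1 = 0 := by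
        simp only [cr] at h4
        linear_combination -h4
      rw [this, zero_div]
    rw [e5] at g3
    simp only [lc, nm, dn]
    simp only [div_eq_mul_inv] at g3
    exact g3
  | some k =>
    have g1 : HasDerivAt (fun w => (hF x (cp (some k : Option (Fin 1)) w)).1) v.1 z := h2.fst
    have g2 : HasDerivAt (fun w => (hF x (cp (some k : Option (Fin 1)) w)).2) v.2 z := h2.snd
    have hne : (hF x (cp (some k : Option (Fin 1)) z)).2 ≠ 0 := hdn
    have g3 := g1.div g2 hne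
    have e5 : (v.1 * (hF x (cp (some k : Option (Fin 1)) z)).2 -
        (hF x (cp (some k : Option (Fin 1)) z)).1 * v.2) /
        (hF x (cp (some k : Option (Fin 1)) z)).2 ^ 2 = 0 := by
      have : v.1 * (hF x (cp (some k : Option (Fin 1)) z)).2 -
        (hF x (cp (some k : Option (Fin 1)) z)).1 * v.2 = 0 := by
        simp only [cr] at h4
        linear_combination h4
      rw [this, zero_div]
    rw [e5] at g3
    simp only [lc, nm, dn]
    simp only [div_eq_mul_inv] at g3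
    exact g3

theorem core {d : ℕ} (hd : 2 ≤ d) (x₀ : CV d) (k : Option (Fin 1)) (z₀ : ℂ) (hND : ND x₀)
    (hfix : sp x₀ (pr (cp k z₀)) = pr (cp k z₀)) (hw : wr x₀ (cp k z₀) = 0) :
    ∃ δ : ℝ, 0 < δ ∧ ∃ V ∈ 𝓝 (pr (cp k z₀)), ∀ x : CV d, ‖x - x₀‖ < δ → ∀ q ∈ V, sp x q = q →
      Sink (sp x) 1 q := by
  have hd1 : 1 ≤ d := by omega
  have hch := chart k
  -- the map in the chart
  set W : CV d × ℂ → ℂ × ℂ := fun q => hF q.1 (cp k q.2) with hW
  set G : CV d × ℂ → ℂ := fun q => lc k (W q) with hG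
  have hcpc : ContDiff ℂ 1 (cp k) := by
    cases k with
    | none => exact contDiff_const.prodMk contDiff_id
    | some k => exact contDiff_id.prodMk contDiff_const
  have hWc : ContDiff ℂ 1 W :=
    (hF_contDiff d 1).comp (contDiff_fst.prodMk (hcpc.comp contDiff_snd))
  have hspx : ∀ x : CV d, ND x → ∀ z : ℂ, dn k (W (x, z)) ≠ 0 →
      sp x (pr (cp k z)) = pr (cp k (G (x, z))) := by
    intro x hx z hne
    obtain ⟨-, h2, h3, -, -⟩ := SP d x hd1 hx
    have h4 := h2 (cp k z) (cp_ne k z) 1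
    rw [Function.iterate_one, Function.iterate_one] at h4
    rw [h4]
    have h5 : hF x (cp k z) = dn k (W (x, z)) • cp k (G (x, z)) := eq_dn_smul k _ hne
    have h6 : hF x (cp k z) ≠ 0 := fun h => cp_ne k z (hx _ h)
    rw [h3 _ _ h6 (cp_ne k _), h5, cr_smul_left, cr_self, mul_zero]
  have hdn0 : dn k (W (x₀, z₀)) ≠ 0 := by
    obtain ⟨-, h2, h3, -, -⟩ := SP d x₀ hd1 hND
    have h4 := h2 (cp k z₀) (cp_ne k z₀) 1
    rw [Function.iterate_one, Function.iterate_one, hfix] at h4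
    have h6 : hF x₀ (cp k z₀) ≠ 0 := fun h => cp_ne k z₀ (hND _ h)
    rw [h3 _ _ (cp_ne k _) h6, cr_comm, neg_eq_zero] at h4
    obtain ⟨a, ha, h7⟩ := (cr_eq_zero_iff h6 (cp_ne k z₀)).1 h4
    show dn k (hF x₀ (cp k z₀)) ≠ 0
    rw [h7, dn_smul_cp]
    exact ha
  have hdc : ContDiff ℂ 1 (dn k) := by
    cases k with
    | none => exact contDiff_fst
    | some k => exact contDiff_snd
  have hnc : ContDiff ℂ 1 (nm k) := by
    cases k with
    | none => exact contDiff_snd
    | some k => exact contDiff_fst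
  have hGc : ContDiffAt ℂ 1 G (x₀, z₀) := by
    have h1 : ContDiffAt ℂ 1 (fun q => nm k (W q)) (x₀, z₀) := (hnc.comp hWc).contDiffAt
    have h2 : ContDiffAt ℂ 1 (fun q => dn k (W q)) (x₀, z₀) := (hdc.comp hWc).contDiffAt
    exact h1.mul (h2.inv hdn0)
  obtain ⟨e, he⟩ : ∃ e, HasDerivAt (fun w => cp k w) e z₀ := by
    have : DifferentiableAt ℂ (fun w => cp k w) z₀ := (cp_cont k) z₀
    exact ⟨_, this.hasDerivAt⟩
  have hder : HasDerivAt (fun w => G (x₀, w)) 0 z₀ := deriv_zero hd x₀ k z₀ hw hdn0 e he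
  have hstr : HasStrictFDerivAt G (fderiv ℂ G (x₀, z₀)) (x₀, z₀) :=
    hGc.hasStrictFDerivAt (by norm_num)
  have hL : fderiv ℂ G (x₀, z₀) ((0 : CV d), (1 : ℂ)) = 0 := by
    have h4 : HasDerivAt (fun w : ℂ => (x₀, w)) ((0 : CV d), (1 : ℂ)) z₀ :=
      (hasDerivAt_const z₀ x₀).prodMk (hasDerivAt_id z₀)
    have h5 : HasDerivAt (fun w => G (x₀, w)) (fderiv ℂ G (x₀, z₀) ((0 : CV d), (1 : ℂ))) z₀ :=
      hstr.hasFDerivAt.comp_hasDerivAt z₀ h4
    exact h5.unique hder
  have hLz : ∀ t : ℂ, fderiv ℂ G (x₀, z₀) ((0 : CV d), t) = 0 := by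
    intro t
    have : ((0 : CV d), t) = t • ((0 : CV d), (1 : ℂ)) := by
      apply Prod.ext
      · simp
      · simp
    rw [this, map_smul, hL, smul_zero]
  have hev1 : ∀ᶠ p : (CV d × ℂ) × (CV d × ℂ) in 𝓝 ((x₀, z₀), (x₀, z₀)),
      ‖G p.1 - G p.2 - fderiv ℂ G (x₀, z₀) (p.1 - p.2)‖ ≤ 1 / 2 * ‖p.1 - p.2‖ :=
    hstr.isLittleO.def (by norm_num)
  obtain ⟨ρ, hρ, hρb⟩ := Metric.eventually_nhds_iff.1 hev1
  have hev2 : ∀ᶠ q : CV d × ℂ in 𝓝 (x₀, z₀), ND q.1 ∧ dn k (W q) ≠ 0 := by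
    have h1 : ∀ᶠ q : CV d × ℂ in 𝓝 (x₀, z₀), ND q.1 :=
      (continuous_fst.tendsto (x₀, z₀)).eventually (ND_open hND)
    have h2 : ∀ᶠ q : CV d × ℂ in 𝓝 (x₀, z₀), dn k (W q) ≠ 0 :=
      ((hdc.comp hWc).continuous.continuousAt).eventually_ne hdn0
    exact h1.and h2
  obtain ⟨ρ', hρ', hρb'⟩ := Metric.eventually_nhds_iff.1 hev2
  set r : ℝ := min ρ ρ' with hr
  have hr0 : 0 < r := lt_min hρ hρ'
  have key : ∀ x : CV d, ‖x - x₀‖ < r → ∀ z w : ℂ, ‖z - z₀‖ < r → ‖w - z₀‖ < r →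
      ‖G (x, z) - G (x, w)‖ ≤ 1 / 2 * ‖z - w‖ ∧ ND x ∧ dn k (W (x, z)) ≠ 0 := by
    intro x hx z w hz hw
    have h1 : dist (((x, z) : CV d × ℂ), ((x, w) : CV d × ℂ)) ((x₀, z₀), (x₀, z₀)) < ρ := by
      rw [Prod.dist_eq, Prod.dist_eq, Prod.dist_eq]
      simp only [dist_eq_norm]
      refine max_lt (max_lt ?_ ?_) (max_lt ?_ ?_)
      · exact lt_of_lt_of_le hx (min_le_left _ _)
      · exact lt_of_lt_of_le hz (min_le_left _ _)
      · exact lt_of_lt_of_le hx (min_le_left _ _)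
      · exact lt_of_lt_of_le hw (min_le_left _ _)
    have h2 := hρb h1
    have h3 : ((x, z) : CV d × ℂ) - (x, w) = ((0 : CV d), z - w) := by
      rw [Prod.mk_sub_mk, sub_self]
    simp only [h3, hLz, sub_zero] at h2
    have h4 : ‖((0 : CV d), z - w)‖ = ‖z - w‖ := by
      rw [Prod.norm_def]
      simp
    rw [h4] at h2
    have h5 : dist ((x, z) : CV d × ℂ) (x₀, z₀) < ρ' := by
      rw [Prod.dist_eq]
      simp only [dist_eq_norm]
      exact max_lt (lt_of_lt_of_le hx (min_le_right _ _)) (lt_of_lt_of_le hz (min_le_right _ _))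
    exact ⟨h2, hρb' h5⟩
  refine ⟨r, hr0, (fun z => pr (cp k z)) '' ball z₀ (r / 2),
    hch.isOpenMap.image_mem_nhds (ball_mem_nhds z₀ (by positivity)), ?_⟩
  rintro x hx _ ⟨a, ha, rfl⟩ hq
  have ha' : ‖a - z₀‖ < r / 2 := by rw [← dist_eq_norm]; exact ha
  have ha'' : ‖a - z₀‖ < r := by linarith
  obtain ⟨-, hNDx, hdna⟩ := key x hx a a ha'' ha''
  have hGa : G (x, a) = a := by
    have h1 := hspx x hNDx a hdna
    have h2 : sp x (pr (cp k a)) = pr (cp k a) := hq
    rw [h2] at h1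
    exact (hch.injective h1).symm
  refine sink_of_contr hch (g := fun w => G (x, w)) (r := r / 2) (by positivity) hGa ?_ ?_
  · intro w hw
    have hw' : ‖w - a‖ < r / 2 := by rw [← dist_eq_norm]; exact hw
    have hw'' : ‖w - z₀‖ < r := by
      calc ‖w - z₀‖ = ‖(w - a) + (a - z₀)‖ := by ring_nf
        _ ≤ ‖w - a‖ + ‖a - z₀‖ := norm_add_le _ _
        _ < r := by linarith
    exact hspx x hNDx w (key x hx w w hw'' hw'').2.2
  · intro w hw
    have hw' : ‖w - a‖ < r / 2 := by rw [← dist_eq_norm]; exact hw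
    have hw'' : ‖w - z₀‖ < r := by
      calc ‖w - z₀‖ = ‖(w - a) + (a - z₀)‖ := by ring_nf
        _ ≤ ‖w - a‖ + ‖a - z₀‖ := norm_add_le _ _
        _ < r := by linarith
    have h1 := (key x hx w a hw'' ha'').1
    rw [hGa] at h1
    exact h1

theorem task : Pool.Agent.W757.RD.StNAC := by
  intro d x₀ q₀ hd hND hfix hw
  induction q₀ using OnePoint.rec with
  | infty =>
    have e : pr (cp (none : Option (Fin 1)) 0) = (∞ : OnePoint ℂ) := by simp [pr, cp]
    have h := core hd x₀ (none : Option (Fin 1)) 0 hND (by rw [e]; exact hfix) hw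
    rwa [e] at h
  | coe z =>
    have e : pr (cp (some 0 : Option (Fin 1)) z) = (z : OnePoint ℂ) := by simp [pr, cp]
    have h := core hd x₀ (some 0 : Option (Fin 1)) z hND (by rw [e]; exact hfix) hw
    rwa [e] at h

end Pool.Agent.W364.RENAC
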