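import Mathlib
import Pool.Agent.W757.RD.StN
import Pool.Agent.H790R3.RB.TCJ
import Pool.Agent.W364.NM.Lin
import Pool.Agent.W364.RENAC

/-! Project RD (helper757), task RE-NM: normalisation near a noncritical fixed point
(helper364). -/

set_option autoImplicit false

open Topology Filter Metric Set MeasureTheory Polynomial
open Pool.Agent.H790R3.RB
open Pool.Agent.H790R3.RB.FAM (cp cp_ne cp_cont ND_open)
open Pool.Agent.W757.RD (mb StFM StNM fam U₀ Gz Nrm)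
open Pool.Agent.W757.QR (nu de)
open scoped OnePoint

namespace Pool.Agent.W364.NM

/-- the matrix of `mb` -/
def mt (a₁ a₂ : ℂ) (Q : ℂ × ℂ) : (ℂ × ℂ) × (ℂ × ℂ) :=
  ((cr (a₂, 1) Q, -(a₁ * cr (a₂, 1) Q)), (Q.2 * (a₂ - a₁), -(Q.1 * (a₂ - a₁))))

theorem mb_eq (a₁ a₂ : ℂ) (Q p : ℂ × ℂ) : mb a₁ a₂ Q p = ap (mt a₁ a₂ Q) p := by
  apply Prod.ext
  · simp only [mb, ap, mt, cr]; ring
  · simp only [mb, ap, mt, cr]; ring

theorem dt_mt (a₁ a₂ : ℂ) (Q : ℂ × ℂ) :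
    dt (mt a₁ a₂ Q) = cr (a₂, 1) Q * (a₂ - a₁) * cr (a₁, 1) Q := by
  simp only [dt, mt, cr]; ring

/-- the size of the conjugation by a linear map -/
noncomputable def Nm {d : ℕ} (cj : (ℂ × ℂ) × (ℂ × ℂ) → CV d → CV d) (m : (ℂ × ℂ) × (ℂ × ℂ)) : ℝ :=
  ∑ i : Fin 2 × Fin (d + 1), ‖cj m (Pi.single i 1)‖

theorem Nm_bound {d : ℕ} {cj : (ℂ × ℂ) × (ℂ × ℂ) → CV d → CV d}
    (hadd : ∀ m x y, cj m (x + y) = cj m x + cj m y)
    (hsmul : ∀ m (a : ℂ) x, cj m (a • x) = a • cj m x) (m : (ℂ × ℂ) × (ℂ × ℂ)) (v : CV d) :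
    ‖cj m v‖ ≤ Nm cj m * ‖v‖ := by
  have hlin : ∀ (s : Finset (Fin 2 × Fin (d + 1))), cj m (∑ i ∈ s, v i • Pi.single i (1 : ℂ)) =
      ∑ i ∈ s, v i • cj m (Pi.single i 1) := by
    intro s
    induction s using Finset.induction_on with
    | empty =>
      have := hsmul m 0 0
      simpa using this
    | insert a s ha ih => rw [Finset.sum_insert ha, Finset.sum_insert ha, hadd, hsmul, ih]
  have hv : v = ∑ i, v i • Pi.single i (1 : ℂ) := by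
    funext j
    simp [Finset.sum_apply, Pi.single_apply]
  have h1 : cj m v = ∑ i, v i • cj m (Pi.single i 1) := by
    conv_lhs => rw [hv]
    exact hlin _
  rw [h1, Nm, Finset.sum_mul]
  refine (norm_sum_le _ _).trans (Finset.sum_le_sum fun i _ => ?_)
  rw [norm_smul, mul_comm]
  exact mul_le_mul_of_nonneg_left (norm_le_pi_norm v i) (norm_nonneg _)

/-- a point which is not a zero of given polynomials -/
theorem exists_good (P : ℂ[X]) (hP : P ≠ 0) : ∃ z : ℂ, P.eval z ≠ 0 := by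
  by_contra h
  push Not at h
  exact hP (Polynomial.funext fun z => by rw [h z, eval_zero])

theorem comb_ne {d : ℕ} (hd : 1 ≤ d) {x : CV d} (hx : ND x) {α β : ℂ} (h : α ≠ 0 ∨ β ≠ 0) :
    C α * pol x 0 - C β * pol x 1 ≠ 0 := by
  obtain ⟨h1, h2⟩ := PQ.part1 hd x hx
  intro h0
  have key : ∀ (A B : ℂ[X]) (a b : ℂ), a ≠ 0 → IsCoprime A B → C a * A = C b * B →
      max A.natDegree B.natDegree = 0 := by
    intro A B a b ha hAB hE
    have e1 : A = C (b / a) * B := by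
      have : C a * A = C a * (C (b / a) * B) := by
        rw [hE, ← mul_assoc, ← C_mul, mul_div_cancel₀ _ ha]
      exact mul_left_cancel₀ (C_ne_zero.2 ha) this
    have hu : IsUnit B := by
      rw [e1] at hAB
      exact (IsCoprime.of_mul_left_right hAB).isUnit_of_dvd' (dvd_refl B) (dvd_refl B)
    have hB : B.natDegree = 0 := natDegree_eq_zero_of_isUnit hu
    have hA : A.natDegree = 0 := by
      rw [e1]
      have := natDegree_C_mul_le (b / a) B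
      omega
    rw [hA, hB, max_self]
  rcases h with ha | hb
  · have := key _ _ α β ha h1 (sub_eq_zero.1 h0)
    omega
  · have := key _ _ β α hb h1.symm (sub_eq_zero.1 h0).symm
    rw [max_comm] at this
    omega

theorem fixp_ne {d : ℕ} (hd : 2 ≤ d) {x : CV d} (hx : ND x) : pol x 0 - X * pol x 1 ≠ 0 := by
  obtain ⟨h1, h2⟩ := PQ.part1 (by omega) x hx
  intro h0
  have e1 : pol x 0 = X * pol x 1 := sub_eq_zero.1 h0
  have hu : IsUnit (pol x 1) := by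
    rw [e1] at h1
    exact (IsCoprime.of_mul_left_right h1).isUnit_of_dvd' (dvd_refl _) (dvd_refl _)
  have hB : (pol x 1).natDegree = 0 := natDegree_eq_zero_of_isUnit hu
  have hA : (pol x 0).natDegree ≤ 1 := by
    rw [e1]
    have := natDegree_mul_le (p := (X : ℂ[X])) (q := pol x 1)
    rw [hB, natDegree_X] at this
    exact this
  rw [hB] at h2
  omega

theorem wpol_ne {d : ℕ} (hd : 2 ≤ d) (x : CV d) (k : Option (Fin 1)) (z₀ : ℂ)
    (hw : wr x (cp k z₀) ≠ 0) : ∃ W : ℂ[X], W ≠ 0 ∧ ∀ ζ : ℂ, W.eval ζ = wr x (ζ, 1) := by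
  obtain ⟨W, -, h2, h3⟩ := (WR d x hd).2.1
  refine ⟨W, ?_, h2⟩
  rintro rfl
  cases k with
  | none =>
    rw [coeff_zero] at h3
    have h4 := (WR d x hd).1
    apply hw
    -- not used for `z₀ ≠ 0`
    have h5 : wr x (1, z₀) = 0 := by
      rcases eq_or_ne z₀ 0 with rfl | hz
      · exact h3.symm
      · have e : ((1, z₀) : ℂ × ℂ) = z₀ • ((z₀⁻¹, 1) : ℂ × ℂ) := by
          apply Prod.ext
          · simp [hz]
          · simp
        rw [e, h4, ← h2, eval_zero, mul_zero]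
    exact h5
  | some k =>
    apply hw
    show wr x (z₀, 1) = 0
    rw [← h2, eval_zero]

/-- the base points -/
theorem exists_base {d : ℕ} (hd : 2 ≤ d) (x : CV d) (hx : ND x) (k : Option (Fin 1)) (z₀ : ℂ)
    (hfix : cr (hF x (cp k z₀)) (cp k z₀) = 0) (hw : wr x (cp k z₀) ≠ 0) :
    ∃ z₁ b₁ b₂ c : ℂ, c ≠ 0 ∧ hF x (z₁, 1) = c • ((b₁, 1) : ℂ × ℂ) ∧ wr x (z₁, 1) ≠ 0 ∧
      b₁ ≠ z₁ ∧ b₂ ≠ z₁ ∧ b₂ ≠ b₁ ∧ cr (b₁, 1) (cp k z₀) ≠ 0 ∧ cr (b₂, 1) (cp k z₀) ≠ 0 ∧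
      cr (z₁, 1) (cp k z₀) ≠ 0 := by
  obtain ⟨W, hW, hWe⟩ := wpol_ne hd x k z₀ hw
  set Q := cp k z₀ with hQ
  have hQ0 : Q ≠ 0 := cp_ne k z₀
  have hQ' : Q.2 ≠ 0 ∨ Q.1 ≠ 0 := by
    by_contra h
    push Not at h
    exact hQ0 (Prod.ext h.2 h.1)
  have n1 := comb_ne (by omega : 1 ≤ d) hx (α := 0) (β := -1) (Or.inr (by norm_num))
  have n2 := comb_ne (by omega : 1 ≤ d) hx hQ'
  have n3 := fixp_ne hd hx
  obtain ⟨z₁, hz⟩ := exists_good _ (mul_ne_zero (mul_ne_zero hW n1) (mul_ne_zero n2 n3))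
  rw [eval_mul, eval_mul, eval_mul] at hz
  have hz1 := left_ne_zero_of_mul (left_ne_zero_of_mul hz)
  have hz2 := right_ne_zero_of_mul (left_ne_zero_of_mul hz)
  have hz3 := left_ne_zero_of_mul (right_ne_zero_of_mul hz)
  have hz4 := right_ne_zero_of_mul (right_ne_zero_of_mul hz)
  simp only [eval_sub, eval_mul, eval_C, eval_X, zero_mul, zero_sub, neg_mul, one_mul,
    neg_neg] at hz2 hz3 hz4
  rw [hWe] at hz1
  set A := (pol x 0).eval z₁ with hA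
  set B := (pol x 1).eval z₁ with hB
  have hF1 : hF x (z₁, 1) = (A, B) := PQ.hF_one x z₁
  have hF2 : hF x (z₁, 1) = B • ((A / B, 1) : ℂ × ℂ) := by
    rw [hF1]
    apply Prod.ext
    · simp only [Prod.smul_mk, smul_eq_mul]
      field_simp
    · simp
  have hcrb : cr (A / B, 1) Q ≠ 0 := by
    intro h
    apply hz3
    simp only [cr] at h
    field_simp at h
    linear_combination h
  have hcrz : cr (z₁, 1) Q ≠ 0 := by
    intro h
    have h1 := cr_iter x 1 (vne z₁) hQ0 h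
    simp only [Function.iterate_one] at h1
    have h2 : hF x Q ≠ 0 := fun h => hQ0 (hx _ h)
    have h3 := cr_trans h2 h1 hfix
    rw [hF2, cr_smul_left] at h3
    exact (mul_ne_zero hz2 hcrb) h3
  -- the second base point
  have n4 : (X - C (A / B)) * (X - C z₁) * (C Q.2 * X - C Q.1) ≠ (0 : ℂ[X]) := by
    refine mul_ne_zero (mul_ne_zero (X_sub_C_ne_zero _) (X_sub_C_ne_zero _)) ?_
    intro h
    have h0 := congrArg (fun P : ℂ[X] => P.coeff 0) h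
    have h1 := congrArg (fun P : ℂ[X] => P.coeff 1) h
    simp at h0 h1
    exact hQ0 (Prod.ext h0 h1)
  obtain ⟨b₂, hb⟩ := exists_good _ n4
  rw [eval_mul, eval_mul] at hb
  have hb1 := left_ne_zero_of_mul (left_ne_zero_of_mul hb)
  have hb2 := right_ne_zero_of_mul (left_ne_zero_of_mul hb)
  have hb3 := right_ne_zero_of_mul hb
  simp only [eval_sub, eval_mul, eval_C, eval_X] at hb1 hb2 hb3
  refine ⟨z₁, A / B, b₂, B, hz2, hF2, hz1, ?_, sub_ne_zero.1 hb2, sub_ne_zero.1 hb1, hcrb, ?_,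
    hcrz⟩
  · intro h
    apply hz4
    rw [← h] at *
    field_simp
    ring
  · intro h
    apply hb3
    simp only [cr] at h
    linear_combination h

theorem pr_vec (z : ℂ) : pr (z, 1) = (z : OnePoint ℂ) := by simp [pr]

theorem hF_inf' {d : ℕ} (x : CV d) : hF x (1, 0) = (x (0, Fin.last d), x (1, Fin.last d)) := by
  have h0 := PQ.pol_coeff x 0 (Fin.last d)
  have h1 := PQ.pol_coeff x 1 (Fin.last d)
  rw [Fin.val_last] at h0 h1
  rw [PQ.hF_inf, h0, h1]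

theorem mt_Q (a₁ a₂ : ℂ) (Q : ℂ × ℂ) :
    ap (mt a₁ a₂ Q) Q = (cr Q (a₁, 1) * cr (a₂, 1) Q) • ((1, 0) : ℂ × ℂ) := by
  apply Prod.ext
  · simp only [ap, mt, cr, Prod.smul_fst, smul_eq_mul]; ring
  · simp only [ap, mt, cr, Prod.smul_snd, smul_eq_mul]; ring

theorem core {d : ℕ} (hFM : StFM) (hd : 2 ≤ d) (x₀ : CV d) (k : Option (Fin 1)) (z₀ : ℂ)
    (hND : ND x₀) (hfix : sp x₀ (pr (cp k z₀)) = pr (cp k z₀)) (hw : wr x₀ (cp k z₀) ≠ 0) :
    ∃ (b₁ b₂ : ℂ) (u₀ : Fin (2 * d) → ℂ), b₁ ≠ b₂ ∧ (b₁ : OnePoint ℂ) ≠ pr (cp k z₀) ∧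
      (b₂ : OnePoint ℂ) ≠ pr (cp k z₀) ∧ u₀ ∈ U₀ d ∧ Gz (fam u₀) ∧
      ∀ ε : ℝ, 0 < ε → ∃ (C δ : ℝ), 0 < C ∧ 0 < δ ∧ ∃ V ∈ 𝓝 (pr (cp k z₀)), ∀ x : CV d,
        ‖x - x₀‖ < δ →
        ∀ q ∈ V, sp x q = q → ∀ a₁ a₂ : ℂ, ‖a₁ - b₁‖ < δ → ‖a₂ - b₂‖ < δ →
        ∃ (u₁ : Fin (2 * d) → ℂ) (h : OnePoint ℂ ≃ₜ OnePoint ℂ) (Q : ℂ × ℂ), Q ≠ 0 ∧ pr Q = q ∧
          (∀ p : ℂ × ℂ, p ≠ 0 → h (pr p) = pr (mb a₁ a₂ Q p)) ∧ h q = ∞ ∧
          h (a₁ : OnePoint ℂ) = ((0 : ℂ) : OnePoint ℂ) ∧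
          h (a₂ : OnePoint ℂ) = ((1 : ℂ) : OnePoint ℂ) ∧ ‖u₁ - u₀‖ < ε ∧
          (∀ z, h (sp x z) = sp (fam u₁) (h z)) ∧
          ∀ u : Fin (2 * d) → ℂ, ‖u - u₁‖ < 1 → ND (fam u) → ∃ x' : CV d,
            ‖x' - x‖ ≤ C * ‖u - u₁‖ ∧ ND x' ∧ ∀ z, h (sp x' z) = sp (fam u) (h z) := by
  have hd1 : 1 ≤ d := by omega
  obtain ⟨-, -, hiso, -, hsurj⟩ := hFM d hd
  obtain ⟨cj, hcjC, hadd, hsmul, -, hcj0⟩ := CJ d
  have hcj : ∀ m x p, hF (cj m x) p = ap m (hF x (ap (ad m) p)) := by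
    intro m x p
    rw [hcj0]
    have e : ((m.2.2 * p.1 - m.1.2 * p.2, m.1.1 * p.2 - m.2.1 * p.1) : ℂ × ℂ) = ap (ad m) p := by
      apply Prod.ext
      · simp only [ap, ad]; ring
      · simp only [ap, ad]; ring
    rw [e]
    rfl
  have hcjap : ∀ m x p, hF (cj m x) (ap m p) = dt m ^ d • ap m (hF x p) := by
    intro m x p
    rw [hcj, ap_ad, hF_smul, ap_smul]
  have hcjcj : ∀ m x, cj (ad m) (cj m x) = dt m ^ (d + 1) • x := by
    intro m x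
    apply ALL.hF_inj
    intro p
    rw [hcj, ad_ad, hcjap, ap_smul, ap_ad, hF_csmul, smul_smul, pow_succ]
  have hdtad : ∀ m, dt (ad m) = dt m := by
    intro m
    simp only [dt, ad]; ring
  have hcjND : ∀ m x, dt m ≠ 0 → ND x → ND (cj m x) := by
    intro m x hm hx p hp
    rw [hcj] at hp
    have h1 := hx _ (ap_eq_zero hm hp)
    have h2 : dt (ad m) ≠ 0 := by rwa [hdtad]
    exact ap_eq_zero h2 h1
  -- fixed point in homogeneous coordinates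
  have hspfix : ∀ (x : CV d), ND x → ∀ p : ℂ × ℂ, p ≠ 0 → sp x (pr p) = pr p →
      cr (hF x p) p = 0 := by
    intro x hx p hp h
    have h1 : hF x p ≠ 0 := fun h => hp (hx _ h)
    rw [sp_pr hd1 hx hp] at h
    exact ((SP d x hd1 hx).2.2.1 _ _ h1 hp).1 h
  have hprne : ∀ p q : ℂ × ℂ, p ≠ 0 → q ≠ 0 → cr p q ≠ 0 → pr p ≠ pr q := by
    intro p q hp hq h h1
    exact h (((SP d x₀ hd1 hND).2.2.1 _ _ hp hq).1 h1)
  -- normalised vectors
  have hNrm : ∀ (m : (ℂ × ℂ) × (ℂ × ℂ)) (x : CV d) (Q : ℂ × ℂ) (c : ℂ), c ≠ 0 → dt m ≠ 0 → ND x →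
      cr (hF x Q) Q = 0 → Q ≠ 0 → ap m Q = c • ((1, 0) : ℂ × ℂ) →
      cj m x (0, Fin.last d) ≠ 0 ∧ cj m x (1, Fin.last d) = 0 := by
    intro m x Q c hc hm hx hQ hQ0 hmQ
    have h1 : hF x Q ≠ 0 := fun h => hQ0 (hx _ h)
    obtain ⟨a, ha, h2⟩ := (cr_eq_zero_iff h1 hQ0).1 hQ
    have h3 := hcjap m x Q
    rw [h2, ap_smul, hmQ, hF_smul, hF_inf'] at h3
    have h4 := congrArg Prod.fst h3
    have h5 := congrArg Prod.snd h3
    simp only [Prod.smul_fst, Prod.smul_snd, smul_eq_mul, mul_one, mul_zero] at h4 h5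
    have hcd : c ^ d ≠ 0 := pow_ne_zero _ hc
    refine ⟨?_, (mul_eq_zero.1 h5).resolve_left hcd⟩
    intro h6
    rw [h6, mul_zero] at h4
    exact (mul_ne_zero (pow_ne_zero d hm) (mul_ne_zero ha hc)) h4.symm
  obtain ⟨z₁, b₁, b₂, c₁, hc₁, hF1, hw1, hbz1, hbz2, hbb, hb1, hb2, hz1⟩ :=
    exists_base hd x₀ hND k z₀ (hspfix x₀ hND _ (cp_ne k z₀) hfix) hw
  -- the families
  set Mf : CV d × ℂ × ℂ × ℂ → (ℂ × ℂ) × (ℂ × ℂ) :=
    fun θ => mt θ.2.2.1 θ.2.2.2 (cp k θ.2.1) with hMf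
  set Y : CV d × ℂ × ℂ × ℂ → CV d := fun θ => cj (Mf θ) θ.1 with hY
  set θ₀ : CV d × ℂ × ℂ × ℂ := (x₀, z₀, b₁, b₂) with hθ₀
  have hMc : Continuous Mf := by
    have c0 : Continuous (fun θ : CV d × ℂ × ℂ × ℂ => cp k θ.2.1) :=
      (cp_cont k).continuous.comp (continuous_snd.fst)
    have c1 : Continuous (fun θ : CV d × ℂ × ℂ × ℂ => (cp k θ.2.1).1) := c0.fst
    have c2 : Continuous (fun θ : CV d × ℂ × ℂ × ℂ => (cp k θ.2.1).2) := c0.snd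
    have c3 : Continuous (fun θ : CV d × ℂ × ℂ × ℂ => θ.2.2.1) := by fun_prop
    have c4 : Continuous (fun θ : CV d × ℂ × ℂ × ℂ => θ.2.2.2) := by fun_prop
    have c5 : Continuous (fun θ : CV d × ℂ × ℂ × ℂ => cr (θ.2.2.2, 1) (cp k θ.2.1)) :=
      (c4.mul c2).sub (continuous_const.mul c1)
    exact (c5.prodMk (c3.mul c5).neg).prodMk ((c2.mul (c4.sub c3)).prodMk (c1.mul (c4.sub c3)).neg)
  have hYc : Continuous Y := hcjC.continuous.comp (hMc.prodMk continuous_fst)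
  have hdtc : Continuous (fun m : (ℂ × ℂ) × (ℂ × ℂ) => dt m) := by
    unfold dt
    fun_prop
  have hadc : Continuous (fun m : (ℂ × ℂ) × (ℂ × ℂ) => ad m) := by
    unfold ad
    fun_prop
  have hDc : Continuous (fun θ => dt (Mf θ)) := hdtc.comp hMc
  have hmtQ : ∀ θ, ap (Mf θ) (cp k θ.2.1) =
      (cr (cp k θ.2.1) (θ.2.2.1, 1) * cr (θ.2.2.2, 1) (cp k θ.2.1)) • ((1, 0) : ℂ × ℂ) :=
    fun θ => mt_Q _ _ _
  have hcne : ∀ θ, dt (Mf θ) ≠ 0 →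
      cr (cp k θ.2.1) (θ.2.2.1, 1) * cr (θ.2.2.2, 1) (cp k θ.2.1) ≠ 0 := by
    intro θ h
    rw [hMf] at h
    simp only [dt_mt] at h
    have h1 := left_ne_zero_of_mul (left_ne_zero_of_mul h)
    have h2 := right_ne_zero_of_mul h
    refine mul_ne_zero ?_ h1
    rw [cr_comm]
    exact neg_ne_zero.2 h2
  have hD0 : dt (Mf θ₀) ≠ 0 := by
    simp only [hMf, hθ₀, dt_mt]
    exact mul_ne_zero (mul_ne_zero hb2 (sub_ne_zero.2 hbb)) hb1
  have hQ0 : cp k z₀ ≠ 0 := cp_ne k z₀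
  obtain ⟨hl0, hl1⟩ := hNrm (Mf θ₀) x₀ (cp k z₀) _ (hcne θ₀ hD0) hD0 hND
    (hspfix x₀ hND _ hQ0 hfix) hQ0 (hmtQ θ₀)
  set l₀ : ℂ := cj (Mf θ₀) x₀ (0, Fin.last d) with hl₀
  obtain ⟨u₀, hu₀⟩ := hsurj (l₀⁻¹ • cj (Mf θ₀) x₀) ⟨by
    simp only [Pi.smul_apply, smul_eq_mul]
    exact inv_mul_cancel₀ hl0, by
    simp only [Pi.smul_apply, smul_eq_mul, hl1, mul_zero]⟩
  set m₀ := Mf θ₀ with hm₀
  set c₂ : ℂ := l₀⁻¹ * dt m₀ ^ d with hc₂
  have hc₂0 : c₂ ≠ 0 := mul_ne_zero (inv_ne_zero hl0) (pow_ne_zero _ hD0)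
  have hrel0 : ∀ p, hF (fam u₀) (ap m₀ p) = c₂ • ap m₀ (hF x₀ p) := by
    intro p
    rw [hu₀, hF_csmul, hcjap, smul_smul]
  have hNDu : ND (fam u₀) := by
    rw [hu₀]
    exact ND_csmul (inv_ne_zero hl0) (hcjND _ _ hD0 hND)
  have hwru : wr (fam u₀) (1, 0) ≠ 0 := by
    have h1 := wr_conj hd hD0 hrel0 (cp k z₀)
    have h2 := hmtQ θ₀
    have h3 : θ₀.2.1 = z₀ := rfl
    rw [h3] at h2
    rw [h2, (WR d (fam u₀) hd).1] at h1
    intro h4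
    rw [h4, mul_zero] at h1
    exact (mul_ne_zero (pow_ne_zero 2 hc₂0) hw) h1.symm
  have hGz : Gz (fam u₀) := by
    set Q := cp k z₀ with hQ
    have hap : ∀ p, ap m₀ p = mb b₁ b₂ Q p := fun p => (mb_eq _ _ _ _).symm
    set α : ℂ := cr (z₁, 1) (b₁, 1) * cr (b₂, 1) Q with hα
    set β : ℂ := cr (z₁, 1) Q * cr (b₂, 1) (b₁, 1) with hβ
    have e1 : ap m₀ (z₁, 1) = (α, β) := hap _
    have hcr : ∀ a b : ℂ, a ≠ b → cr (a, 1) (b, 1) ≠ 0 := by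
      intro a b hab h
      simp only [cr] at h
      exact hab (by linear_combination h)
    have hα0 : α ≠ 0 := mul_ne_zero (hcr _ _ (Ne.symm hbz1)) hb2
    have hβ0 : β ≠ 0 := mul_ne_zero hz1 (hcr _ _ hbb)
    have hαβ : α - β ≠ 0 := by
      have : α - β = cr (z₁, 1) (b₂, 1) * cr (b₁, 1) Q := by
        simp only [hα, hβ, cr]; ring
      rw [this]
      exact mul_ne_zero (hcr _ _ (Ne.symm hbz2)) hb1
    have e2 : (((α / β, 1) : ℂ × ℂ)) = β⁻¹ • ap m₀ (z₁, 1) := by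
      rw [e1]
      apply Prod.ext
      · simp only [Prod.smul_fst, smul_eq_mul]; field_simp
      · simp only [Prod.smul_snd, smul_eq_mul]; field_simp
    have e3a : hF (fam u₀) (ap m₀ (z₁, 1)) = (c₂ * c₁) • ((0, cr (b₁, 1) Q *
        cr (b₂, 1) (b₁, 1)) : ℂ × ℂ) := by
      rw [hrel0, hF1, ap_smul, smul_smul, hap]
      congr 1
      apply Prod.ext
      · simp [mb, cr]
      · simp [mb]
    have e3 : hF (fam u₀) (α / β, 1) = β⁻¹ ^ d • (c₂ * c₁) • ((0, cr (b₁, 1) Q *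
        cr (b₂, 1) (b₁, 1)) : ℂ × ℂ) := by
      rw [e2, hF_smul, e3a]
    rw [PQ.hF_one] at e3
    have e4 : (nu (fam u₀)).eval (α / β) = 0 := by
      show (pol (fam u₀) 0).eval (α / β) = 0
      have := congrArg Prod.fst e3
      simpa using this
    have e5 : (de (fam u₀)).eval (α / β) = β⁻¹ ^ d * ((c₂ * c₁) * (cr (b₁, 1) Q *
        cr (b₂, 1) (b₁, 1))) := by
      show (pol (fam u₀) 1).eval (α / β) = _
      have := congrArg Prod.snd e3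
      simpa using this
    have e6 : (de (fam u₀)).eval (α / β) ≠ 0 := by
      rw [e5]
      exact mul_ne_zero (pow_ne_zero _ (inv_ne_zero hβ0)) (mul_ne_zero (mul_ne_zero hc₂0 hc₁)
        (mul_ne_zero hb1 (hcr _ _ hbb)))
    refine ⟨α / β, div_ne_zero hα0 hβ0, ?_, e4, ?_, e6⟩
    · intro h
      rw [div_eq_one_iff_eq hβ0] at h
      exact hαβ (sub_eq_zero.2 h)
    · intro h
      have h1 := wr_conj hd hD0 hrel0 (z₁, 1)
      have h2 : wr (fam u₀) (α / β, 1) ≠ 0 := by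
        rw [e2, (WR d (fam u₀) hd).1, h1]
        exact mul_ne_zero (pow_ne_zero _ (inv_ne_zero hβ0)) (mul_ne_zero (pow_ne_zero 2 hc₂0) hw1)
      apply h2
      have h3 : (derivative (pol (fam u₀) 0)).eval (α / β) = 0 := h
      have h4 : (pol (fam u₀) 0).eval (α / β) = 0 := e4
      rw [wr_eval hd, h3, h4]
      ring
  refine ⟨b₁, b₂, u₀, Ne.symm hbb, ?_, ?_, ⟨hNDu, hwru⟩, hGz, ?_⟩
  · rw [← pr_vec]
    exact hprne _ _ (vne _) hQ0 hb1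
  · rw [← pr_vec]
    exact hprne _ _ (vne _) hQ0 hb2
  intro ε hε
  -- continuity
  set κ : CV d × ℂ × ℂ × ℂ → ℂ := fun θ => Y θ (0, Fin.last d) * (dt (Mf θ) ^ (d + 1))⁻¹ with hκ
  have hYl : Continuous (fun θ => Y θ (0, Fin.last d)) := (continuous_apply _).comp hYc
  have hκc : ContinuousAt κ θ₀ :=
    hYl.continuousAt.mul ((hDc.pow (d + 1)).continuousAt.inv₀ (pow_ne_zero _ hD0))
  have hNmc : Continuous (fun θ => Nm cj (ad (Mf θ))) := by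
    unfold Nm
    refine continuous_finsetSum _ fun i _ => ?_
    exact (hcjC.continuous.comp ((hadc.comp hMc).prodMk continuous_const)).norm
  set C : ℝ := ‖κ θ₀‖ * Nm cj (ad (Mf θ₀)) + 1 with hC
  have hNm0 : ∀ m, 0 ≤ Nm cj m := fun m => Finset.sum_nonneg fun i _ => norm_nonneg _
  have hC0 : 0 < C := by
    have := mul_nonneg (norm_nonneg (κ θ₀)) (hNm0 (ad (Mf θ₀)))
    linarith
  have ev1 : ∀ᶠ θ in 𝓝 θ₀, ND θ.1 := (continuous_fst.tendsto θ₀).eventually (ND_open hND)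
  have ev2 : ∀ᶠ θ in 𝓝 θ₀, dt (Mf θ) ≠ 0 := hDc.continuousAt.eventually_ne hD0
  have ev3 : ∀ᶠ θ in 𝓝 θ₀, Y θ (0, Fin.last d) ≠ 0 := hYl.continuousAt.eventually_ne hl0
  have ev4 : ∀ᶠ θ in 𝓝 θ₀, ‖(Y θ (0, Fin.last d))⁻¹ • Y θ - fam u₀‖ < ε := by
    have h1 : ContinuousAt (fun θ => ‖(Y θ (0, Fin.last d))⁻¹ • Y θ - fam u₀‖) θ₀ :=
      (((hYl.continuousAt.inv₀ hl0).smul hYc.continuousAt).sub continuousAt_const).norm
    refine h1.eventually_lt_const ?_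
    show ‖(Y θ₀ (0, Fin.last d))⁻¹ • Y θ₀ - fam u₀‖ < ε
    rw [hu₀]
    have : (Y θ₀ (0, Fin.last d))⁻¹ • Y θ₀ = l₀⁻¹ • cj (Mf θ₀) x₀ := rfl
    rw [this, sub_self, norm_zero]
    exact hε
  have ev5 : ∀ᶠ θ in 𝓝 θ₀, ‖κ θ‖ * Nm cj (ad (Mf θ)) < C := by
    have h1 : ContinuousAt (fun θ => ‖κ θ‖ * Nm cj (ad (Mf θ))) θ₀ :=
      hκc.norm.mul hNmc.continuousAt
    refine h1.eventually_lt_const ?_
    show ‖κ θ₀‖ * Nm cj (ad (Mf θ₀)) < C
    rw [hC]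
    linarith
  obtain ⟨δ, hδ, hδb⟩ := Metric.eventually_nhds_iff.1 (ev1.and (ev2.and (ev3.and (ev4.and ev5))))
  have hch := RENAC.chart k
  refine ⟨C, δ, hC0, hδ, (fun z => pr (cp k z)) '' ball z₀ δ,
    hch.isOpenMap.image_mem_nhds (ball_mem_nhds z₀ hδ), ?_⟩
  rintro x hx _ ⟨z, hz, rfl⟩ hq a₁ a₂ ha₁ ha₂
  have hz' : ‖z - z₀‖ < δ := by rw [← dist_eq_norm]; exact hz
  have hdist : dist ((x, z, a₁, a₂) : CV d × ℂ × ℂ × ℂ) θ₀ < δ := by
    rw [hθ₀, Prod.dist_eq, Prod.dist_eq, Prod.dist_eq]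
    simp only [dist_eq_norm]
    exact max_lt hx (max_lt hz' (max_lt ha₁ ha₂))
  obtain ⟨g1, g2, g3, g4, g5⟩ := hδb hdist
  set θ : CV d × ℂ × ℂ × ℂ := (x, z, a₁, a₂) with hθ
  have hNDx : ND x := g1
  set m := Mf θ with hm
  have hQz : cp k z ≠ 0 := cp_ne k z
  have hmQ : ap m (cp k z) = (cr (cp k z) (a₁, 1) * cr (a₂, 1) (cp k z)) • ((1, 0) : ℂ × ℂ) :=
    hmtQ θ
  have hcQ : cr (cp k z) (a₁, 1) * cr (a₂, 1) (cp k z) ≠ 0 := hcne θ g2
  have hq' : sp x (pr (cp k z)) = pr (cp k z) := hq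
  obtain ⟨-, hy1⟩ := hNrm m x (cp k z) _ hcQ g2 hNDx (hspfix x hNDx _ hQz hq') hQz hmQ
  set l : ℂ := Y θ (0, Fin.last d) with hl
  have hlY : l = cj m x (0, Fin.last d) := rfl
  obtain ⟨u₁, hu₁⟩ := hsurj (l⁻¹ • cj m x) ⟨by
    simp only [Pi.smul_apply, smul_eq_mul]
    rw [← hlY]
    exact inv_mul_cancel₀ g3, by
    simp only [Pi.smul_apply, smul_eq_mul, hy1, mul_zero]⟩
  obtain ⟨h, hh, -⟩ := MOB SP m.1.1 m.1.2 m.2.1 m.2.2 g2
  have hh' : ∀ p : ℂ × ℂ, p ≠ 0 → h (pr p) = pr (ap m p) := hh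
  have hapm : ∀ p, ap m p = mb a₁ a₂ (cp k z) p := fun p => (mb_eq _ _ _ _).symm
  have hD : cr (a₂, 1) (cp k z) * (a₂ - a₁) * cr (a₁, 1) (cp k z) ≠ 0 := by
    rw [← dt_mt]
    exact g2
  have hD1 := left_ne_zero_of_mul (left_ne_zero_of_mul hD)
  have hD2 := right_ne_zero_of_mul (left_ne_zero_of_mul hD)
  have hD3 := right_ne_zero_of_mul hD
  have hcr21 : cr (a₂, 1) (a₁, 1) ≠ 0 := by
    simp only [cr]
    intro h0
    exact hD2 (by linear_combination h0)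
  refine ⟨u₁, h, cp k z, hQz, rfl, ?_, ?_, ?_, ?_, ?_, ?_, ?_⟩
  · intro p hp
    rw [hh' p hp, hapm]
  · show h (pr (cp k z)) = ∞
    rw [hh' _ hQz, hmQ, pr_csmul hcQ]
    simp [pr]
  · rw [← pr_vec a₁, hh' _ (vne _), hapm, ← pr_vec 0]
    have e : mb a₁ a₂ (cp k z) (a₁, 1) =
        (cr (a₁, 1) (cp k z) * cr (a₂, 1) (a₁, 1)) • ((0, 1) : ℂ × ℂ) := by
      apply Prod.ext
      · simp [mb, cr]
      · simp [mb]
    rw [e, pr_csmul (mul_ne_zero hD3 hcr21)]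
  · rw [← pr_vec a₂, hh' _ (vne _), hapm, ← pr_vec 1]
    have e : mb a₁ a₂ (cp k z) (a₂, 1) =
        (cr (a₂, 1) (cp k z) * cr (a₂, 1) (a₁, 1)) • ((1, 1) : ℂ × ℂ) := by
      apply Prod.ext
      · simp only [mb, Prod.smul_fst, smul_eq_mul]; ring
      · simp only [mb, Prod.smul_snd, smul_eq_mul]; ring
    rw [e, pr_csmul (mul_ne_zero hD1 hcr21)]
  · rw [← hiso, hu₁]
    exact g4
  · intro w
    refine semi hd1 hNDx (y := fam u₁) ?_ g2 (c := l⁻¹ * dt m ^ d)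
      (mul_ne_zero (inv_ne_zero g3) (pow_ne_zero _ g2)) ?_ h hh' w
    · rw [hu₁]
      exact ND_csmul (inv_ne_zero g3) (hcjND _ _ g2 hNDx)
    · intro p
      rw [hu₁, hF_csmul, hcjap, smul_smul]
  · intro u _ hNDu'
    have hκθ : κ θ = l * (dt m ^ (d + 1))⁻¹ := rfl
    have hκ0 : κ θ ≠ 0 := by
      rw [hκθ]
      exact mul_ne_zero g3 (inv_ne_zero (pow_ne_zero _ g2))
    have hx1 : x = κ θ • cj (ad m) (fam u₁) := by
      rw [hu₁, hsmul, hcjcj, smul_smul, smul_smul, hκθ]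
      have : l * (dt m ^ (d + 1))⁻¹ * l⁻¹ * dt m ^ (d + 1) = 1 := by
        field_simp [g3, pow_ne_zero (d + 1) g2]
      rw [this, one_smul]
    have hrel : ∀ p, ap m (hF (κ θ • cj (ad m) (fam u)) p) = (κ θ * dt m) • hF (fam u) (ap m p) := by
      intro p
      rw [hF_csmul, hcj, ad_ad, ap_smul, ad_ap, smul_smul]
    have hrel' : ∀ p, hF (fam u) (ap m p) = (κ θ * dt m)⁻¹ •
        ap m (hF (κ θ • cj (ad m) (fam u)) p) := by
      intro p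
      rw [hrel, smul_smul, inv_mul_cancel₀ (mul_ne_zero hκ0 g2), one_smul]
    have hNDx' : ND (κ θ • cj (ad m) (fam u)) :=
      ND_csmul hκ0 (hcjND _ _ (by rw [hdtad]; exact g2) hNDu')
    refine ⟨κ θ • cj (ad m) (fam u), ?_, hNDx', ?_⟩
    · have e1 : κ θ • cj (ad m) (fam u) - x = κ θ • cj (ad m) (fam u - fam u₁) := by
        have e2 : cj (ad m) (fam u - fam u₁) = cj (ad m) (fam u) - cj (ad m) (fam u₁) := by
          have e3 := hadd (ad m) (fam u - fam u₁) (fam u₁)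
          rw [sub_add_cancel] at e3
          exact eq_sub_of_add_eq e3.symm
        conv_lhs => rw [hx1]
        rw [e2, smul_sub]
      rw [e1, norm_smul]
      calc ‖κ θ‖ * ‖cj (ad m) (fam u - fam u₁)‖ ≤ ‖κ θ‖ * (Nm cj (ad m) * ‖fam u - fam u₁‖) :=
            mul_le_mul_of_nonneg_left (Nm_bound hadd hsmul _ _) (norm_nonneg _)
        _ = ‖κ θ‖ * Nm cj (ad m) * ‖u - u₁‖ := by rw [hiso, mul_assoc]
        _ ≤ C * ‖u - u₁‖ := mul_le_mul_of_nonneg_right g5.le (norm_nonneg _)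
    · intro w
      exact semi hd1 hNDx' hNDu' g2 (inv_ne_zero (mul_ne_zero hκ0 g2)) hrel' h hh' w

end Pool.Agent.W364.NM

namespace Pool.Agent.W364.RENM

theorem task (hFM : Pool.Agent.W757.RD.StFM) : Pool.Agent.W757.RD.StNM := by
  intro d x₀ q₀ hd hND hfix hw
  induction q₀ using OnePoint.rec with
  | infty =>
    have e : pr (cp (none : Option (Fin 1)) 0) = (∞ : OnePoint ℂ) := by simp [pr, cp]
    have h := NM.core hFM hd x₀ (none : Option (Fin 1)) 0 hND (by rw [e]; exact hfix) hw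
    rw [e] at h
    exact h
  | coe z =>
    have e : pr (cp (some 0 : Option (Fin 1)) z) = (z : OnePoint ℂ) := by simp [pr, cp]
    have h := NM.core hFM hd x₀ (some 0 : Option (Fin 1)) z hND (by rw [e]; exact hfix) hw
    rw [e] at h
    exact h

end Pool.Agent.W364.RENM
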