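import Mathlib
import Pool.Agent.W757.RD.St
import Pool.Agent.H790R3.RB.TFAT
import Pool.Agent.H790R3.RB.TPROP
import Pool.Agent.H790R3.RB.TWR
import Pool.Agent.H790R3.RB.TCHAIN
import Pool.Agent.H713R5.QJ.TKBP

/-! Project RD (helper757), task RE-FAT: Fatou's argument with Koebe's theorem (helper364).
Adapted from `Pool.Agent.H790R3.RB.TFAT`. -/

set_option autoImplicit false

open Topology Filter Metric Set MeasureTheory
open Pool.Agent.H790R3.RB

namespace Pool.Agent.W364.REFAT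

open Pool.Agent.H790R3.RB.FAT in
theorem task : Pool.Agent.W757.RD.StFAT := by
  refine ⟨4, by norm_num, ?_⟩
  intro d p x ψ lam ζ₀ r rF hd hp hx hinf hζ₀ hr hrF hlam hlam1 hψ hinj hfe H1
  have hlpos : 0 < ‖lam‖ := norm_pos_iff.mpr hlam
  -- the number of iterates
  obtain ⟨N1, hN1, hN1r⟩ : ∃ N1 : ℕ, 1 ≤ N1 ∧ ‖lam‖ ^ N1 * rF < r := by
    obtain ⟨M, hM⟩ := exists_pow_lt_of_lt_one (div_pos hr hrF) hlam1
    refine ⟨M + 1, Nat.succ_pos M, ?_⟩
    rw [← lt_div_iff₀ hrF]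
    exact lt_of_le_of_lt (pow_le_pow_of_le_one hlpos.le hlam1.le (Nat.le_succ M)) hM
  set N : ℕ := p * N1 with hN
  have hNpos : 1 ≤ N := Nat.mul_pos hp hN1
  -- the point at infinity
  have hinf1 : ((hF x)^[1] (1, 0)).2 = 0 := hinf
  have hinfN : ∀ k : ℕ, ∃ a : ℂ, (hF x)^[k] (1, 0) = a • ((1, 0) : ℂ × ℂ) := by
    intro k
    have := inf_fix hinf1 k
    rwa [one_mul] at this
  have hNinf : ((hF x)^[N] (1, 0)).2 = 0 := by
    obtain ⟨a, ha⟩ := hinfN N
    rw [ha]; simp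
  have hNinf1 : ((hF x)^[N] (1, 0)).1 ≠ 0 := by
    intro h
    have h10 : ((1, 0) : ℂ × ℂ) ≠ 0 := by
      intro h; have := congrArg Prod.fst h; simp at this
    exact hx.iter_ne N h10 (Prod.ext h hNinf)
  have h0r : (0 : ℂ) ∈ ball (0 : ℂ) r := mem_ball_self hr
  -- the function
  set F : ℂ → ℂ → ℂ := fun τ z =>
    ((hF x)^[N] (z, 1)).1 - ψ (lam ^ N1 * Complex.exp τ) * ((hF x)^[N] (z, 1)).2 with hFdef
  have hFcr : ∀ τ z, F τ z = cr ((hF x)^[N] (z, 1)) (ψ (lam ^ N1 * Complex.exp τ), 1) := by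
    intro τ z; simp only [hFdef, cr]; ring
  have hwr : ∀ τ : ℂ, τ.re < Real.log rF → lam ^ N1 * Complex.exp τ ∈ ball (0 : ℂ) r := by
    intro τ hτ
    rw [mem_ball_zero_iff, norm_mul, norm_pow, Complex.norm_exp]
    have : Real.exp τ.re < rF := by
      rw [← Real.lt_log_iff_exp_lt hrF]; exact hτ
    calc ‖lam‖ ^ N1 * Real.exp τ.re ≤ ‖lam‖ ^ N1 * rF :=
          mul_le_mul_of_nonneg_left this.le (pow_nonneg hlpos.le _)
      _ < r := hN1r
  have hAd : Differentiable ℂ (fun z : ℂ => (hF x)^[N] (z, 1)) := by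
    have h := hF_iter_differentiable d N
    exact h.comp ((differentiable_const x).prodMk (differentiable_id.prodMk (differentiable_const 1)))
  have hAc : ContDiff ℂ 1 (fun z : ℂ => (hF x)^[N] (z, 1)) := by
    have h := hF_iter_contDiff d N 1
    exact h.comp (contDiff_const.prodMk (contDiff_id.prodMk contDiff_const))
  -- applicability of the theorem on roots
  have hroot : ∀ σ : ℝ, σ ≤ Real.log rF → ∀ τ₀ : ℂ, τ₀.re < σ → ∀ u : ℂ, F τ₀ u = 0 →
      ∃ Z : ℂ → ℂ, DifferentiableOn ℂ Z {τ : ℂ | τ.re < σ} ∧ Z τ₀ = u ∧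
        (∀ τ ∈ {τ : ℂ | τ.re < σ}, F τ (Z τ) = 0) ∧
        ∀ Z' : ℂ → ℂ, ContinuousOn Z' {τ : ℂ | τ.re < σ} → (∃ s₁ ∈ {τ : ℂ | τ.re < σ}, Z' s₁ = Z s₁) →
          (∀ τ ∈ {τ : ℂ | τ.re < σ}, F τ (Z' τ) = 0) → ∀ τ ∈ {τ : ℂ | τ.re < σ}, Z' τ = Z τ := by
    intro σ hσ τ₀ hτ₀ u hu
    have hopen : IsOpen {τ : ℂ | τ.re < σ} := isOpen_lt Complex.continuous_re continuous_const
    have hconv : Convex ℝ {τ : ℂ | τ.re < σ} := convex_halfSpace_re_lt σ
    have hwr' : ∀ τ ∈ {τ : ℂ | τ.re < σ}, lam ^ N1 * Complex.exp τ ∈ ball (0 : ℂ) r :=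
      fun τ hτ => hwr τ (lt_of_lt_of_le hτ hσ)
    have hψc : ContDiffOn ℂ 1 (fun τ : ℂ => ψ (lam ^ N1 * Complex.exp τ)) {τ : ℂ | τ.re < σ} := by
      have h1 : ContDiffOn ℂ 1 ψ (ball 0 r) := hψ.contDiffOn isOpen_ball
      exact h1.comp (contDiff_const.mul Complex.contDiff_exp).contDiffOn hwr'
    refine Pool.Agent.H713R3.ZA.root_holds ℂ {τ : ℂ | τ.re < σ} F hopen hconv ?_ ?_ ?_ τ₀ hτ₀ u hu
    · -- regularity
      have hA1 : ContDiff ℂ 1 (fun q : ℂ × ℂ => ((hF x)^[N] (q.2, 1)).1) :=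
        (hAc.comp contDiff_snd).fst
      have hA2 : ContDiff ℂ 1 (fun q : ℂ × ℂ => ((hF x)^[N] (q.2, 1)).2) :=
        (hAc.comp contDiff_snd).snd
      have hu1 : ContDiffOn ℂ 1 (fun q : ℂ × ℂ => ψ (lam ^ N1 * Complex.exp q.1))
          ({τ : ℂ | τ.re < σ} ×ˢ univ) :=
        hψc.comp contDiff_fst.contDiffOn (fun q hq => hq.1)
      exact hA1.contDiffOn.sub (hu1.mul hA2.contDiffOn)
    · -- properness
      intro K hK hKc M
      obtain ⟨R, hR⟩ := hKc.exists_bound_of_continuousOn (hψc.continuousOn.mono hK)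
      obtain ⟨C, hC⟩ := PROP d N {x} (by omega) isCompact_singleton
        (by intro y hy; rw [mem_singleton_iff] at hy; subst hy; exact ⟨hNinf1, hNinf⟩) (max M R)
      refine ⟨C, fun s hs z hz => hC x rfl (ψ (lam ^ N1 * Complex.exp s)) z ?_ ?_⟩
      · exact (hR s hs).trans (le_max_right _ _)
      · exact hz.trans (le_max_left _ _)
    · -- simple roots
      intro τ hτ z hz hder
      have hz1 : ((hF x)^[N] (z, 1)).1 = ψ (lam ^ N1 * Complex.exp τ) * ((hF x)^[N] (z, 1)).2 :=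
        sub_eq_zero.mp hz
      have hd1 : DifferentiableAt ℂ (fun z : ℂ => ((hF x)^[N] (z, 1)).1) z := (hAd z).fst
      have hd2 : DifferentiableAt ℂ (fun z : ℂ => ((hF x)^[N] (z, 1)).2) z := (hAd z).snd
      have hder' : deriv (F τ) z = deriv (fun z : ℂ => ((hF x)^[N] (z, 1)).1) z -
          ψ (lam ^ N1 * Complex.exp τ) * deriv (fun z : ℂ => ((hF x)^[N] (z, 1)).2) z := by
        have h3 : F τ = fun z : ℂ => ((hF x)^[N] (z, 1)).1 -
            ψ (lam ^ N1 * Complex.exp τ) * ((hF x)^[N] (z, 1)).2 := rfl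
        rw [h3, deriv_fun_sub hd1 (hd2.const_mul _), deriv_const_mul _ hd2]
      rw [hder'] at hder
      obtain ⟨m, hm, hwrm⟩ := CHAIN WR d x N z (ψ (lam ^ N1 * Complex.exp τ)) hd hz1
        (sub_eq_zero.mp hder)
      have hc0 : (hF x)^[m] (z, 1) ≠ 0 := hx.iter_ne m (vec_ne z)
      have hw'0 : lam ^ N1 * Complex.exp τ ≠ 0 := mul_ne_zero (pow_ne_zero _ hlam) (Complex.exp_ne_zero _)
      have hcrm : cr ((hF x)^[N - m] ((hF x)^[m] (z, 1))) (ψ (lam ^ N1 * Complex.exp τ), 1) = 0 := by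
        rw [← Function.iterate_add_apply, Nat.sub_add_cancel hm.le, ← hFcr]
        exact hz
      have h4 := H1 _ hc0 hwrm (N - m) _ (hwr' τ hτ) hw'0 hcrm
      rw [norm_mul, norm_pow, Complex.norm_exp] at h4
      have h5 : (N - m) / p ≤ N1 := by
        calc (N - m) / p ≤ N / p := Nat.div_le_div_right (Nat.sub_le _ _)
          _ = N1 := by rw [hN]; exact Nat.mul_div_cancel_left N1 (by omega)
      have h6 : ‖lam‖ ^ N1 * rF ≤ ‖lam‖ ^ ((N - m) / p) * rF :=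
        mul_le_mul_of_nonneg_right (pow_le_pow_of_le_one hlpos.le hlam1.le h5) hrF.le
      have h7 : ‖lam‖ ^ N1 * rF ≤ ‖lam‖ ^ N1 * Real.exp τ.re := h6.trans h4
      have h8 : rF ≤ Real.exp τ.re := le_of_mul_le_mul_left h7 (pow_pos hlpos _)
      have h9 : Real.exp τ.re < rF := by
        rw [← Real.lt_log_iff_exp_lt hrF]; exact lt_of_lt_of_le hτ hσ
      linarith
  -- the small half plane
  set σ' : ℝ := Real.log (min r rF) with hσ'
  have hmin : 0 < min r rF := lt_min hr hrF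
  have hσ'le : σ' ≤ Real.log rF := Real.log_le_log hmin (min_le_right _ _)
  have hexpr : ∀ τ : ℂ, τ.re < σ' → Complex.exp τ ∈ ball (0 : ℂ) r := by
    intro τ hτ
    rw [mem_ball_zero_iff, Complex.norm_exp]
    have : Real.exp τ.re < min r rF := by rw [← Real.lt_log_iff_exp_lt hmin]; exact hτ
    exact this.trans_le (min_le_left _ _)
  have hψF : ∀ τ : ℂ, τ.re < σ' → F τ (ψ (Complex.exp τ)) = 0 := by
    intro τ hτ
    rw [hFcr, hN]
    exact fe_iter hx hlam1 hfe N1 _ (hexpr τ hτ)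
  set τ₀ : ℂ := ((σ' - 1 : ℝ) : ℂ) with hτ₀
  have hτ₀re : τ₀.re = σ' - 1 := by rw [hτ₀, Complex.ofReal_re]
  have hτ₀σ : τ₀.re < σ' := by rw [hτ₀re]; linarith
  have hu0 := hψF τ₀ hτ₀σ
  obtain ⟨Z, hZd, hZ0, hZF, hZu⟩ := hroot (Real.log rF) le_rfl τ₀ (hτ₀σ.trans_le hσ'le) _ hu0
  obtain ⟨Z1, hZ1d, hZ10, hZ1F, hZ1u⟩ := hroot σ' hσ'le τ₀ hτ₀σ _ hu0
  have hsub : {τ : ℂ | τ.re < σ'} ⊆ {τ : ℂ | τ.re < Real.log rF} :=
    fun τ hτ => lt_of_lt_of_le hτ hσ'le
  have hZψ : ∀ τ : ℂ, τ.re < σ' → Z τ = ψ (Complex.exp τ) := by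
    have h1 := hZ1u Z (hZd.continuousOn.mono hsub) ⟨τ₀, hτ₀σ, by rw [hZ0, hZ10]⟩
      (fun τ hτ => hZF τ (hsub hτ))
    have h2 := hZ1u (fun τ => ψ (Complex.exp τ))
      (hψ.continuousOn.comp Complex.continuous_exp.continuousOn (fun τ hτ => hexpr τ hτ))
      ⟨τ₀, hτ₀σ, by rw [hZ10]⟩ (fun τ hτ => hψF τ hτ)
    intro τ hτ
    rw [h1 τ hτ, h2 τ hτ]
  -- periodicity
  have hexpper : ∀ (n : ℤ) (τ : ℂ), Complex.exp (τ + n * (2 * Real.pi * Complex.I)) =
      Complex.exp τ := fun n τ => Complex.exp_periodic.int_mul n τ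
  have hreper : ∀ (n : ℤ) (τ : ℂ), (τ + n * (2 * Real.pi * Complex.I)).re = τ.re := by
    intro n τ
    simp
  have hper : ∀ (n : ℤ) (τ : ℂ), τ.re < Real.log rF →
      Z (τ + n * (2 * Real.pi * Complex.I)) = Z τ := by
    intro n
    have hmaps : MapsTo (fun τ : ℂ => τ + n * (2 * Real.pi * Complex.I))
        {τ : ℂ | τ.re < Real.log rF} {τ : ℂ | τ.re < Real.log rF} := by
      intro τ hτ
      show (τ + n * (2 * Real.pi * Complex.I)).re < Real.log rF
      rw [hreper]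
      exact hτ
    refine hZu (fun τ => Z (τ + n * (2 * Real.pi * Complex.I)))
      (hZd.continuousOn.comp (by fun_prop) hmaps) ⟨τ₀, hτ₀σ.trans_le hσ'le, ?_⟩ (fun τ hτ => ?_)
    · have h1 : (τ₀ + n * (2 * Real.pi * Complex.I)).re < σ' := by rw [hreper]; exact hτ₀σ
      show Z (τ₀ + n * (2 * Real.pi * Complex.I)) = Z τ₀
      rw [hZψ _ h1, hZψ _ hτ₀σ, hexpper]
    · have h1 := hZF _ (hmaps hτ)
      rw [hFcr] at h1 ⊢
      rw [hexpper] at h1
      exact h1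
  -- the extension
  set Ψ : ℂ → ℂ := fun w => if w = 0 then ψ 0 else Z (Complex.log w) with hΨ
  have hΨ0 : Ψ 0 = ψ 0 := by simp [hΨ]
  have hΨne : ∀ w : ℂ, w ≠ 0 → Ψ w = Z (Complex.log w) := fun w hw => by simp [hΨ, hw]
  have hlogre : ∀ w : ℂ, w ≠ 0 → w ∈ ball (0 : ℂ) rF → (Complex.log w).re < Real.log rF := by
    intro w hw hwr
    rw [Complex.log_re]
    rw [mem_ball_zero_iff] at hwr
    exact Real.log_lt_log (norm_pos_iff.mpr hw) hwr
  have hA : ∀ τ : ℂ, τ.re < Real.log rF → Ψ (Complex.exp τ) = Z τ := by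
    intro τ hτ
    rw [hΨne _ (Complex.exp_ne_zero _)]
    have h1 : Complex.exp (Complex.log (Complex.exp τ)) = Complex.exp τ :=
      Complex.exp_log (Complex.exp_ne_zero _)
    obtain ⟨n, hn⟩ := Complex.exp_eq_exp_iff_exists_int.mp h1
    rw [hn]
    exact hper n τ hτ
  have hB : ∀ w ∈ ball (0 : ℂ) (min r rF), Ψ w = ψ w := by
    intro w hw
    rcases eq_or_ne w 0 with rfl | hw0
    · exact hΨ0
    · rw [hΨne w hw0, hZψ _ ?_, Complex.exp_log hw0]
      rw [Complex.log_re, hσ']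
      rw [mem_ball_zero_iff] at hw
      exact Real.log_lt_log (norm_pos_iff.mpr hw0) hw
  have hC : ∀ w ∈ ball (0 : ℂ) rF, cr ((hF x)^[N] (Ψ w, 1)) (ψ (lam ^ N1 * w), 1) = 0 := by
    intro w hw
    rcases eq_or_ne w 0 with rfl | hw0
    · rw [hΨ0, hN]
      exact fe_iter hx hlam1 hfe N1 _ h0r
    · have h1 := hZF _ (hlogre w hw0 hw)
      rw [hFcr, Complex.exp_log hw0] at h1
      rwa [hΨne w hw0]
  have hlw : ∀ w ∈ ball (0 : ℂ) rF, lam ^ N1 * w ∈ ball (0 : ℂ) r := by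
    intro w hw
    rw [mem_ball_zero_iff] at hw ⊢
    rw [norm_mul, norm_pow]
    calc ‖lam‖ ^ N1 * ‖w‖ ≤ ‖lam‖ ^ N1 * rF :=
          mul_le_mul_of_nonneg_left hw.le (pow_nonneg hlpos.le _)
      _ < r := hN1r
  have hev : Ψ =ᶠ[𝓝 0] ψ := by
    filter_upwards [isOpen_ball.mem_nhds (mem_ball_self hmin)] with w hw using hB w hw
  have hΨd : DifferentiableOn ℂ Ψ (ball 0 rF) := by
    intro w₀ hw₀
    refine DifferentiableAt.differentiableWithinAt ?_
    rcases eq_or_ne w₀ 0 with rfl | hw0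
    · exact (hψ.differentiableAt (isOpen_ball.mem_nhds h0r)).congr_of_eventuallyEq hev
    · set L : ℂ → ℂ := fun w => Complex.log (w / w₀) + Complex.log w₀ with hL
      have hL0 : L w₀ = Complex.log w₀ := by simp [hL, div_self hw0]
      have hLd : DifferentiableAt ℂ L w₀ := by
        refine DifferentiableAt.add_const _ ?_
        refine DifferentiableAt.clog (by fun_prop) ?_
        rw [div_self hw0]
        exact Complex.one_mem_slitPlane
      have hLmem : ∀ᶠ w in 𝓝 w₀, (L w).re < Real.log rF := by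
        have h1 : ContinuousAt (fun w => (L w).re) w₀ :=
          Complex.continuous_re.continuousAt.comp hLd.continuousAt
        refine h1.eventually_lt_const ?_
        show (L w₀).re < Real.log rF
        rw [hL0]
        exact hlogre w₀ hw0 hw₀
      have hexpL : ∀ w : ℂ, w ≠ 0 → Complex.exp (L w) = w := by
        intro w hw
        rw [hL]
        simp only
        rw [Complex.exp_add, Complex.exp_log (div_ne_zero hw hw0), Complex.exp_log hw0,
          div_mul_cancel₀ _ hw0]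
      have hopenH : IsOpen {τ : ℂ | τ.re < Real.log rF} :=
        isOpen_lt Complex.continuous_re continuous_const
      have hZd0 : DifferentiableAt ℂ Z (L w₀) := by
        refine hZd.differentiableAt (hopenH.mem_nhds ?_)
        show (L w₀).re < Real.log rF
        rw [hL0]
        exact hlogre w₀ hw0 hw₀
      have h2 : DifferentiableAt ℂ (fun w => Z (L w)) w₀ :=
        DifferentiableAt.comp w₀ hZd0 hLd
      refine h2.congr_of_eventuallyEq ?_
      filter_upwards [hLmem, isOpen_ne.mem_nhds hw0] with w hw1 hw2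
      rw [← hA _ hw1, hexpL w hw2]
  have hΨi : InjOn Ψ (ball 0 rF) := by
    intro w₁ h₁ w₂ h₂ h
    have c1 := hC w₁ h₁
    have c2 := hC w₂ h₂
    rw [← h] at c2
    have hv : (hF x)^[N] (Ψ w₁, 1) ≠ 0 := hx.iter_ne N (vec_ne _)
    have c3 : cr (ψ (lam ^ N1 * w₁), 1) ((hF x)^[N] (Ψ w₁, 1)) = 0 := by
      rw [cr_comm, c1, neg_zero]
    have c4 := cr_trans hv c3 c2
    have c5 : ψ (lam ^ N1 * w₁) = ψ (lam ^ N1 * w₂) := by
      simp only [cr, mul_one, one_mul] at c4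
      exact sub_eq_zero.mp c4
    have c6 := hinj (hlw w₁ h₁) (hlw w₂ h₂) c5
    exact mul_left_cancel₀ (pow_ne_zero _ hlam) c6
  have hΨo : ∀ w ∈ ball (0 : ℂ) rF, Ψ w ≠ ζ₀ := by
    intro w hw h
    have c1 := hC w hw
    rw [h] at c1
    have e1 : hF x (ζ₀, 1) = (hF x (ζ₀, 1)).1 • ((1, 0) : ℂ × ℂ) := by
      apply Prod.ext
      · simp
      · simp [hζ₀]
    have e2 : ∃ a : ℂ, (hF x)^[N] (ζ₀, 1) = a • ((1, 0) : ℂ × ℂ) := by
      obtain ⟨M, hM⟩ : ∃ M, N = M + 1 := ⟨N - 1, by omega⟩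
      obtain ⟨a, ha⟩ := hinfN M
      rw [hM, Function.iterate_succ_apply, e1, hF_iter_smul, ha, smul_smul]
      exact ⟨_, rfl⟩
    obtain ⟨a, ha⟩ := e2
    rw [ha] at c1
    simp only [cr, Prod.smul_fst, Prod.smul_snd, smul_eq_mul, mul_one, mul_zero, zero_mul,
      sub_zero] at c1
    rw [c1, zero_smul] at ha
    exact hx.iter_ne N (vec_ne _) ha
  have hfin := Pool.Agent.H713R5.QJ.kb_omit hrF hΨd hΨi hΨo
  rw [hev.deriv_eq, hΨ0] at hfin
  linarith

end Pool.Agent.W364.REFAT
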